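import Pool.Agent.R999.Conv2
import Pool.Agent.H7R3.TfdwB

/-!
# The root of the atomic TFW density need not be convex

For `γ = 1`, `p = 100000`, `z = λ = 4π/3` and every small `A > 0`, no density whose root is a convex
function of `|x|` has energy within `1/100` of the ground state energy: the minimiser is close to
the indicator of the unit ball.
-/

set_option autoImplicit false

open MeasureTheory Filter Topology Set Metric
open scoped ENNReal NNReal ContDiff

namespace Pool.Agent.Results.MP_3d36e1_mp.RootNotConvex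

/-- Three dimensional Euclidean space. -/
abbrev R3 := EuclideanSpace ℝ (Fin 3)

/-- `ρ` is an admissible density and `g` is the weak gradient of `ρ^{1/2}`: `ρ ≥ 0`,
`ρ ∈ L¹ ∩ L^p`, `D(ρ,ρ) < ∞` and `g = ∇ρ^{1/2} ∈ L²` in the sense of distributions. -/
structure Admissible (p : ℝ) (ρ : R3 → ℝ) (g : R3 → R3) : Prop where
  nonneg : ∀ x, 0 ≤ ρ x
  integrable : Integrable ρ
  integrable_rpow : Integrable (fun x => ρ x ^ p)
  grad_memLp : MemLp g 2
  grad_weak : ∀ φ : R3 → ℝ, ContDiff ℝ ∞ φ → HasCompactSupport φ → ∀ v : R3,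
    ∫ x, √(ρ x) * fderiv ℝ φ x v = -∫ x, inner ℝ (g x) v * φ x
  coulomb : Integrable (fun q : R3 × R3 => ρ q.1 * ρ q.2 / ‖q.1 - q.2‖)
    ((volume : Measure R3).prod volume)

/-- The TFW energy of an atom with nuclear charge `z`; `g` is the weak gradient of `ρ^{1/2}`. -/
noncomputable def energy (A γ p z : ℝ) (ρ : R3 → ℝ) (g : R3 → R3) : ℝ :=
  A * (∫ x, ‖g x‖ ^ 2) + γ / p * (∫ x, ρ x ^ p) - (∫ x, z / ‖x‖ * ρ x)
    + 1/2 * ∫ x, ∫ y, ρ x * ρ y / ‖x - y‖

/-- The energies of the admissible densities with `∫ρ ≤ lam`. -/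
def energySet (A γ p z lam : ℝ) : Set ℝ :=
  {e | ∃ (ρ : R3 → ℝ) (g : R3 → R3), Admissible p ρ g ∧ ∫ x, ρ x ≤ lam ∧ e = energy A γ p z ρ g}

/-- The ground state energy. -/
noncomputable def Emin (A γ p z lam : ℝ) : ℝ := sInf (energySet A γ p z lam)

/-- `ρ` (with `g = ∇ρ^{1/2}`) minimises the energy among the admissible densities of mass `≤ lam`. -/
def IsMinimiser (A γ p z lam : ℝ) (ρ : R3 → ℝ) (g : R3 → R3) : Prop :=
  Admissible p ρ g ∧ ∫ x, ρ x ≤ lam ∧ ∀ (σ : R3 → ℝ) (h : R3 → R3), Admissible p σ h →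
    ∫ x, σ x ≤ lam → energy A γ p z ρ g ≤ energy A γ p z σ h

/-- `ρ^{1/2}` is (a.e.) a convex function of the radius `r ∈ [0,∞)`. -/
def ConvexRoot (ρ : R3 → ℝ) : Prop :=
  ∃ f : ℝ → ℝ, ConvexOn ℝ (Ici 0) f ∧ ∀ᵐ x : R3, √(ρ x) = f ‖x‖

/-- `ρ^{1/2}` is (a.e.) a positive log convex function of the radius `r ∈ [0,∞)`. -/
def LogConvexRoot (ρ : R3 → ℝ) : Prop :=
  ∃ f : ℝ → ℝ, (∀ r, 0 ≤ r → 0 < f r) ∧ ConvexOn ℝ (Ici 0) (fun r => Real.log (f r)) ∧
    ∀ᵐ x : R3, √(ρ x) = f ‖x‖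

lemma LogConvexRoot.convexRoot {ρ : R3 → ℝ} (h : LogConvexRoot ρ) : ConvexRoot ρ := by
  obtain ⟨f, hf, hc, he⟩ := h
  refine ⟨f, ⟨convex_Ici 0, ?_⟩, he⟩
  intro x hx y hy a b ha hb hab
  have hxy : a • x + b • y ∈ Ici (0:ℝ) := (convex_Ici 0) hx hy ha hb hab
  have h1 := hc.2 hx hy ha hb hab
  have h2 := convexOn_exp.2 (mem_univ (Real.log (f x))) (mem_univ (Real.log (f y))) ha hb hab
  calc f (a • x + b • y) = Real.exp (Real.log (f (a • x + b • y))) :=
        (Real.exp_log (hf _ hxy)).symm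
    _ ≤ Real.exp (a • Real.log (f x) + b • Real.log (f y)) := Real.exp_le_exp.2 h1
    _ ≤ a • Real.exp (Real.log (f x)) + b • Real.exp (Real.log (f y)) := h2
    _ = a • f x + b • f y := by rw [Real.exp_log (hf x hx), Real.exp_log (hf y hy)]

lemma dens {ρ : R3 → ℝ} {g : R3 → R3} {p : ℝ} (h : Admissible p ρ g) :
    Pool.Agent.R999.Conv.Dens p ρ := ⟨h.nonneg, h.integrable, h.integrable_rpow⟩

lemma energy_eq (A p : ℝ) (ρ : R3 → ℝ) (g : R3 → R3) :
    energy A 1 p (4 / 3 * Real.pi) ρ g = A * (∫ x, ‖g x‖ ^ 2) + Pool.Agent.R999.Conv.en0 p ρ := by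
  unfold energy Pool.Agent.R999.Conv.en0 Pool.Agent.R999.Conv.zc
  ring

/-- gradient vector of a real function -/
noncomputable def grad (ψ : R3 → ℝ) (x : R3) : R3 :=
  (InnerProductSpace.toDual ℝ R3).symm (fderiv ℝ ψ x)

lemma inner_grad (ψ : R3 → ℝ) (x v : R3) : inner ℝ (grad ψ x) v = fderiv ℝ ψ x v := by
  unfold grad
  exact InnerProductSpace.toDual_symm_apply

lemma trial_admissible {p : ℝ} (hp : 2 ≤ p) {ψ : R3 → ℝ} (hψ : ContDiff ℝ ∞ ψ)
    (hs : HasCompactSupport ψ) (h0 : ∀ x, 0 ≤ ψ x)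
    (hD : Pool.Agent.R999.Conv.Dens p (fun x => ψ x ^ 2)) :
    Admissible p (fun x => ψ x ^ 2) (grad ψ) := by
  have hsq : ∀ x, √(ψ x ^ 2) = ψ x := fun x => Real.sqrt_sq (h0 x)
  have hgc : Continuous (grad ψ) := by
    have h1 : Continuous (fun L : StrongDual ℝ R3 => (InnerProductSpace.toDual ℝ R3).symm L) :=
      LinearIsometryEquiv.continuous _
    have h2 : Continuous (fderiv ℝ ψ) := hψ.continuous_fderiv (by simp)
    exact h1.comp h2
  have hgs : HasCompactSupport (grad ψ) := by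
    have h1 : HasCompactSupport (fun x => (InnerProductSpace.toDual ℝ R3).symm (fderiv ℝ ψ x)) :=
      (hs.fderiv ℝ).comp_left (g := fun L : StrongDual ℝ R3 =>
        (InnerProductSpace.toDual ℝ R3).symm L) (map_zero _)
    exact h1
  refine ⟨hD.nonneg, hD.int, hD.int_pow, hgc.memLp_of_hasCompactSupport hgs, ?_, ?_⟩
  · intro φ hφ hφs v
    simp only [hsq, inner_grad]
    have hc1 : Continuous fun x => fderiv ℝ ψ x v :=
      (hψ.continuous_fderiv (by simp)).clm_apply continuous_const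
    have hc2 : Continuous fun x => fderiv ℝ φ x v :=
      (hφ.continuous_fderiv (by simp)).clm_apply continuous_const
    refine integral_mul_fderiv_eq_neg_fderiv_mul_of_integrable ?_ ?_ ?_ ?_ ?_
    · exact (hc1.mul hφ.continuous).integrable_of_hasCompactSupport hφs.mul_left
    · exact (hψ.continuous.mul hc2).integrable_of_hasCompactSupport hs.mul_right
    · exact (hψ.continuous.mul hφ.continuous).integrable_of_hasCompactSupport hs.mul_right
    · intro x _; exact (hψ.differentiable (by simp)) x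
    · intro x _; exact (hφ.differentiable (by simp)) x
  · have hm : Measurable (fun x => ψ x ^ 2) := (hψ.continuous.pow 2).measurable
    have hN : Pool.Agent.TH791.Cl.Nice (fun x => ψ x ^ 2) := by
      refine ⟨hm, hD.int, (hD.int53 hp).congr (ae_of_all _ fun x => ?_)⟩
      show (ψ x ^ 2) ^ (5/3 : ℝ) = |ψ x ^ 2| ^ (5/3 : ℝ)
      rw [abs_of_nonneg (by positivity)]
    obtain ⟨B, hB⟩ := Pool.Agent.TH791.Cl.nice_bound _ hN
    refine Pool.Agent.H7R3.TfdwB.coulomb_integrable (B := B) (fun x => by positivity) hD.int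
      fun a => ?_
    have e : ∀ x : R3, |ψ x ^ 2| / ‖a - x‖ = ψ x ^ 2 / ‖x - a‖ := by
      intro x
      rw [abs_of_nonneg (by positivity), norm_sub_rev]
    have h1 : Integrable (fun x : R3 => |ψ x ^ 2| / ‖a - x‖) := by
      refine (hB a).1.abs.congr (ae_of_all _ fun x => ?_)
      show |ψ x ^ 2 / ‖a - x‖| = |ψ x ^ 2| / ‖a - x‖
      rw [abs_div, abs_of_nonneg (norm_nonneg _)]
    have h2 := (hB a).2
    simp only [e] at h1 h2
    exact ⟨h1, h2⟩

/-- **Disproof of Q1 and Q2.** For `γ = 1`, `p = 100000`, `z = λ = 4π/3` and all sufficiently small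
`A > 0`: the ground state energy is a genuine infimum, every admissible density of mass at most `λ`
whose root is a convex function of the radius has energy at least `Emin + 1/100`, and hence the root
of a minimiser is neither convex nor log convex. -/
theorem result :
    ∃ A₀ : ℝ, 0 < A₀ ∧ ∀ A : ℝ, 0 < A → A ≤ A₀ →
      IsGLB (energySet A 1 100000 (4 / 3 * Real.pi) (4 / 3 * Real.pi))
        (Emin A 1 100000 (4 / 3 * Real.pi) (4 / 3 * Real.pi)) ∧
      (∀ (ρ : R3 → ℝ) (g : R3 → R3), Admissible 100000 ρ g → ∫ x, ρ x ≤ 4 / 3 * Real.pi →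
        ConvexRoot ρ →
        Emin A 1 100000 (4 / 3 * Real.pi) (4 / 3 * Real.pi) + 1/100 ≤
          energy A 1 100000 (4 / 3 * Real.pi) ρ g) ∧
      (∀ (ρ : R3 → ℝ) (g : R3 → R3),
        IsMinimiser A 1 100000 (4 / 3 * Real.pi) (4 / 3 * Real.pi) ρ g →
        ¬ ConvexRoot ρ ∧ ¬ LogConvexRoot ρ) := by
  have hpi := Real.pi_pos
  have hpi3 := Real.pi_gt_d2
  have hpi4 := Real.pi_lt_d2
  have hz := Pool.Agent.R999.Conv.zc_pos
  have hzeq : Pool.Agent.R999.Conv.zc = 4 / 3 * Real.pi := rfl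
  have hpc : Pool.Agent.R999.Conv.pc = 100000 := rfl
  let b : ContDiffBump (0 : R3) := ⟨9999/10000, 1, by norm_num, by norm_num⟩
  have hbc : ContDiff ℝ ∞ b := b.contDiff
  have hbs : HasCompactSupport b := b.hasCompactSupport
  have hb0 : ∀ x, 0 ≤ b x := fun x => b.nonneg
  obtain ⟨hD, hmass, hup⟩ := Pool.Agent.R999.Conv.trial_up (p := 100000) (a := 9999/10000)
    (by norm_num) (by norm_num) (ρ := fun x : R3 => b x ^ 2) ((hbc.continuous.pow 2).measurable)
    (fun x => by positivity)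
    (fun x => by
      show b x ^ 2 ≤ (ball (0:R3) 1).indicator (fun _ => 1) x
      by_cases hx : x ∈ ball (0:R3) 1
      · rw [indicator_of_mem hx]
        exact pow_le_one₀ (hb0 x) b.le_one
      · rw [indicator_of_notMem hx]
        have : b x = 0 := by
          apply b.zero_of_le_dist
          simpa using hx
        rw [this]; norm_num)
    (fun x hx => by
      show b x ^ 2 = 1
      have : b x = 1 := by
        apply b.one_of_mem_closedBall
        rw [mem_closedBall_zero_iff]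
        exact hx.le
      rw [this]; norm_num)
  set T := ∫ x, ‖grad b x‖ ^ 2 with hT
  have hT0 : 0 ≤ T := integral_nonneg fun x => by positivity
  have hadm := trial_admissible (by norm_num) hbc hbs hb0 hD
  refine ⟨1 / (1000 * (T + 1)), by positivity, fun A hA hA0 => ?_⟩
  have hAT : A * T ≤ 1/1000 := by
    calc A * T ≤ 1 / (1000 * (T + 1)) * (T + 1) := by
          have : T ≤ T + 1 := by linarith
          gcongr
      _ = _ := by field_simp
  have hlow : ∀ (ρ : R3 → ℝ) (g : R3 → R3), Admissible 100000 ρ g →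
      0 - (∫ x, Pool.Agent.R999.Conv.ph x) - 4 * Real.pi * Pool.Agent.R999.Conv.zc ^ 2 / 100000
        - 1/2 * (∫ x, Pool.Agent.R999.Conv.B0 x *
          Pool.Agent.TH791.Cl.pot Pool.Agent.R999.Conv.B0 x)
      ≤ energy A 1 100000 (4 / 3 * Real.pi) ρ g := by
    intro ρ g h
    rw [energy_eq]
    have h1 := Pool.Agent.R999.Conv.gap (p := 100000) (by norm_num) (dens h)
      (S := ∅) MeasurableSet.empty (by simp) (c := 0) (ae_of_all _ fun x hx => absurd hx (by simp))
    have h2 : 0 ≤ A * (∫ x, ‖g x‖ ^ 2) :=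
      mul_nonneg hA.le (integral_nonneg fun x => by positivity)
    rw [zero_mul] at h1
    linarith
  have hbdd : BddBelow (energySet A 1 100000 (4 / 3 * Real.pi) (4 / 3 * Real.pi)) := by
    refine ⟨0 - (∫ x, Pool.Agent.R999.Conv.ph x) - 4 * Real.pi * Pool.Agent.R999.Conv.zc ^ 2 / 100000
        - 1/2 * (∫ x, Pool.Agent.R999.Conv.B0 x *
          Pool.Agent.TH791.Cl.pot Pool.Agent.R999.Conv.B0 x), ?_⟩
    rintro e ⟨ρ, g, h, -, rfl⟩
    exact hlow ρ g h
  have hne : (energySet A 1 100000 (4 / 3 * Real.pi) (4 / 3 * Real.pi)).Nonempty :=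
    ⟨_, _, _, hadm, hmass, rfl⟩
  have hgap : ∀ (ρ : R3 → ℝ) (g : R3 → R3), Admissible 100000 ρ g →
      ∫ x, ρ x ≤ 4 / 3 * Real.pi → ConvexRoot ρ →
        Emin A 1 100000 (4 / 3 * Real.pi) (4 / 3 * Real.pi) + 1/100 ≤
          energy A 1 100000 (4 / 3 * Real.pi) ρ g := by
    rintro ρ g h hm ⟨f, hf, hfe⟩
    have h1 := Pool.Agent.R999.Conv.convex_gap (dens h) hm hf hfe
    have h2 : Emin A 1 100000 (4 / 3 * Real.pi) (4 / 3 * Real.pi) ≤
        energy A 1 100000 (4 / 3 * Real.pi) (fun x => b x ^ 2) (grad b) :=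
      csInf_le hbdd ⟨_, _, hadm, hmass, rfl⟩
    rw [energy_eq] at h2 ⊢
    have h3 : 0 ≤ A * (∫ x, ‖g x‖ ^ 2) :=
      mul_nonneg hA.le (integral_nonneg fun x => by positivity)
    have h4 := Pool.Agent.R999.Conv.ph_total
    have hz1 : (4.186 : ℝ) ≤ Pool.Agent.R999.Conv.zc := by rw [hzeq]; linarith
    have hz2 : Pool.Agent.R999.Conv.zc ≤ 4.2 := by rw [hzeq]; linarith
    have h5 : (0.02027 : ℝ) ≤ Pool.Agent.R999.Conv.gapc := by
      unfold Pool.Agent.R999.Conv.gapc
      nlinarith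
    have h6 : 4 * Real.pi * Pool.Agent.R999.Conv.zc ^ 2 / 100000 ≤ 0.00223 := by
      have : 4 * Real.pi * Pool.Agent.R999.Conv.zc ^ 2 ≤ 4 * 3.15 * 4.2 ^ 2 := by gcongr
      rw [div_le_iff₀ (by norm_num)]
      norm_num at this ⊢
      linarith
    have h7 : Pool.Agent.R999.Conv.zc / 100000 ≤ 0.00005 := by
      rw [div_le_iff₀ (by norm_num)]
      linarith
    have h8 : 2 * Real.pi * Pool.Agent.R999.Conv.zc * (1 - (9999/10000) ^ 2) ≤ 0.0053 := by
      have : 2 * Real.pi * Pool.Agent.R999.Conv.zc ≤ 2 * 3.15 * 4.2 := by gcongr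
      nlinarith
    rw [hpc] at h1
    norm_num at h5 h6 h7 h8 ⊢
    nlinarith
  refine ⟨isGLB_csInf hne hbdd, hgap, fun ρ g hmin => ?_⟩
  have hno : ¬ ConvexRoot ρ := by
    intro hc
    have h1 := hgap ρ g hmin.1 hmin.2.1 hc
    have h2 : energy A 1 100000 (4 / 3 * Real.pi) ρ g ≤
        Emin A 1 100000 (4 / 3 * Real.pi) (4 / 3 * Real.pi) := by
      refine le_csInf hne ?_
      rintro e ⟨σ, s, hσ, hσm, rfl⟩
      exact hmin.2.2 σ s hσ hσm
    linarith
  exact ⟨hno, fun h => hno h.convexRoot⟩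

end Pool.Agent.Results.MP_3d36e1_mp.RootNotConvex
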